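import Pool.Agent.TH279.GR.Defs
import Pool.Agent.TH493.NEF.Mul

/-!
# GR-G7 (helper857 for helper279): multipliers on a curve
-/

set_option autoImplicit false

open MvPolynomial Module Filter Topology

namespace Pool.Agent.TH279.GR.G7

open Pool.Agent.TH279.GR

variable {a b : ℕ}

namespace Aux

theorem mem_bh {u v : ℕ} {f : Co a b} :
    f ∈ bh a b u v ↔ ∀ d, coeff d f ≠ 0 → Finsupp.weight (wt a b) d = (u, v) := Iff.rfl

theorem bh_mul {u v u' v' : ℕ} {f g : Co a b} (hf : f ∈ bh a b u v) (hg : g ∈ bh a b u' v') :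
    f * g ∈ bh a b (u + u') (v + v') := by
  have h : IsWeightedHomogeneous (wt a b) (f * g) ((u, v) + (u', v')) :=
    IsWeightedHomogeneous.mul hf hg
  exact h

/-- splitting a monomial -/
theorem split (u v u' v' : ℕ) (d : Ix a b →₀ ℕ)
    (hd : Finsupp.weight (wt a b) d = (u + u', v + v')) :
    ∃ d1 d2 : Ix a b →₀ ℕ, d1 + d2 = d ∧ Finsupp.weight (wt a b) d1 = (u, v) ∧
      Finsupp.weight (wt a b) d2 = (u', v') := by
  classical
  induction u generalizing d with
  | zero =>
    induction v generalizing d with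
    | zero => exact ⟨0, d, zero_add d, by simp; rfl, by simpa using hd⟩
    | succ v ih =>
      -- a variable `y_j` occurs in `d`
      have h1 : ∃ j : Fin (b + 1), d (Sum.inr j) ≠ 0 := by
        by_contra hcon
        push Not at hcon
        have h2 : (Finsupp.weight (wt a b) d).2 = 0 := by
          rw [Finsupp.weight_apply, Finsupp.sum, Prod.snd_sum]
          refine Finset.sum_eq_zero fun i _ => ?_
          rcases i with i | j
          · simp [wt]
          · simp [wt, hcon j]
        rw [hd] at h2
        simp only at h2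
        omega
      obtain ⟨j, hj⟩ := h1
      have h3 : d = Finsupp.single (Sum.inr j) 1 + (d - Finsupp.single (Sum.inr j) 1) := by
        rw [add_tsub_cancel_of_le]
        rw [Finsupp.single_le_iff]
        omega
      have h4 : Finsupp.weight (wt a b) (d - Finsupp.single (Sum.inr j) 1) = (0 + u', v + v') := by
        have h5 := congrArg (Finsupp.weight (wt a b)) h3
        rw [map_add, hd, Finsupp.weight_single] at h5
        have h6 : wt a b (Sum.inr j) = (0, 1) := rfl
        rw [h6] at h5
        have h7 := congrArg Prod.fst h5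
        have h8 := congrArg Prod.snd h5
        simp only [Prod.fst_add, Prod.snd_add, Prod.smul_mk, one_smul] at h7 h8
        ext
        · simp only; omega
        · simp only; omega
      obtain ⟨d1, d2, e1, e2, e3⟩ := ih _ h4
      refine ⟨Finsupp.single (Sum.inr j) 1 + d1, d2, ?_, ?_, e3⟩
      · rw [add_assoc, e1, ← h3]
      · rw [map_add, Finsupp.weight_single, e2]
        have h6 : wt a b (Sum.inr j) = (0, 1) := rfl
        rw [h6]
        ext
        · simp
        · simp; omega
  | succ u ih =>
    have h1 : ∃ j : Fin (a + 1), d (Sum.inl j) ≠ 0 := by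
      by_contra hcon
      push Not at hcon
      have h2 : (Finsupp.weight (wt a b) d).1 = 0 := by
        rw [Finsupp.weight_apply, Finsupp.sum, Prod.fst_sum]
        refine Finset.sum_eq_zero fun i _ => ?_
        rcases i with i | j
        · simp [wt, hcon i]
        · simp [wt]
      rw [hd] at h2
      simp only at h2
      omega
    obtain ⟨j, hj⟩ := h1
    have h3 : d = Finsupp.single (Sum.inl j) 1 + (d - Finsupp.single (Sum.inl j) 1) := by
      rw [add_tsub_cancel_of_le]
      rw [Finsupp.single_le_iff]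
      omega
    have h4 : Finsupp.weight (wt a b) (d - Finsupp.single (Sum.inl j) 1) = (u + u', v + v') := by
      have h5 := congrArg (Finsupp.weight (wt a b)) h3
      rw [map_add, hd, Finsupp.weight_single] at h5
      have h6 : wt a b (Sum.inl j) = (1, 0) := rfl
      rw [h6] at h5
      have h7 := congrArg Prod.fst h5
      have h8 := congrArg Prod.snd h5
      simp only [Prod.fst_add, Prod.snd_add, Prod.smul_mk, one_smul] at h7 h8
      ext
      · simp only; omega
      · simp only; omega
    obtain ⟨d1, d2, e1, e2, e3⟩ := ih _ h4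
    refine ⟨Finsupp.single (Sum.inl j) 1 + d1, d2, ?_, ?_, e3⟩
    · rw [add_assoc, e1, ← h3]
    · rw [map_add, Finsupp.weight_single, e2]
      have h6 : wt a b (Sum.inl j) = (1, 0) := rfl
      rw [h6]
      ext
      · simp; omega
      · simp

theorem bh_le_mul (u v u' v' : ℕ) : bh a b (u + u') (v + v') ≤ bh a b u v * bh a b u' v' := by
  intro f hf
  rw [f.as_sum]
  refine Submodule.sum_mem _ fun d hd => ?_
  obtain ⟨d1, d2, e1, e2, e3⟩ := split u v u' v' d (hf (mem_support_iff.1 hd))
  have h1 : monomial d (coeff d f) = monomial d1 (coeff d f) * monomial d2 1 := by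
    rw [monomial_mul, e1, mul_one]
  rw [h1]
  exact Submodule.mul_mem_mul (isWeightedHomogeneous_monomial _ _ _ e2)
    (isWeightedHomogeneous_monomial _ _ _ e3)

theorem mul_le_bh (u v u' v' : ℕ) : bh a b u v * bh a b u' v' ≤ bh a b (u + u') (v + v') := by
  rw [Submodule.mul_le]
  exact fun f hf g hg => bh_mul hf hg

/-- the exponents of bidegree `(u, v)` are bounded -/
theorem finite_exp (u v : ℕ) : {d : Ix a b →₀ ℕ | Finsupp.weight (wt a b) d = (u, v)}.Finite := by
  classical
  refine (Set.finite_Iic (Finsupp.equivFunOnFinite.symm fun _ : Ix a b => u + v)).subset ?_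
  intro d hd i
  have hd' : Finsupp.weight (wt a b) d = (u, v) := hd
  have h3 : d = Finsupp.single i (d i) + (d - Finsupp.single i (d i)) := by
    rw [add_tsub_cancel_of_le]
    rw [Finsupp.single_le_iff]
  have h5 := congrArg (Finsupp.weight (wt a b)) h3
  rw [map_add, hd', Finsupp.weight_single] at h5
  have h7 := congrArg Prod.fst h5
  have h8 := congrArg Prod.snd h5
  show d i ≤ u + v
  rcases i with i | i
  · have h6 : wt a b (Sum.inl i) = (1, 0) := rfl
    rw [h6] at h7
    simp only [Prod.fst_add, Prod.smul_mk, smul_eq_mul, mul_one] at h7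
    omega
  · have h6 : wt a b (Sum.inr i) = (0, 1) := rfl
    rw [h6] at h8
    simp only [Prod.snd_add, Prod.smul_mk, smul_eq_mul, mul_one] at h8
    omega

theorem finite_bh (u v : ℕ) : FiniteDimensional ℂ (bh a b u v) := by
  classical
  have h1 : bh a b u v = Submodule.span ℂ ((finite_exp (a := a) (b := b) u v).toFinset.image
      (fun d => monomial d (1 : ℂ)) : Set (Co a b)) := by
    apply le_antisymm
    · intro f hf
      rw [f.as_sum]
      refine Submodule.sum_mem _ fun d hd => ?_
      have h2 : monomial d (coeff d f) = coeff d f • monomial d (1 : ℂ) := by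
        rw [smul_monomial, smul_eq_mul, mul_one]
      rw [h2]
      refine Submodule.smul_mem _ _ (Submodule.subset_span ?_)
      rw [Finset.coe_image]
      exact ⟨d, by
        rw [Finset.mem_coe, Set.Finite.mem_toFinset]
        exact hf (mem_support_iff.1 hd), rfl⟩
    · rw [Submodule.span_le]
      intro x hx
      rw [Finset.coe_image] at hx
      obtain ⟨d, hd, rfl⟩ := hx
      rw [Finset.mem_coe, Set.Finite.mem_toFinset] at hd
      exact isWeightedHomogeneous_monomial _ _ _ hd
  rw [h1]
  infer_instance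

end Aux

open Aux

theorem mult_bound {Q : Ideal (Co a b)} (hQ : Q.IsPrime) (hh : BHom Q) (hr : Rel Q)
    {dA dB : ℕ} {c0 : ℤ} (hl : Lin Q dA dB c0) (m n q p c e u v : ℕ) (V : Submodule ℂ (KK Q))
    [FiniteDimensional ℂ V] (hV : V ≠ ⊥)
    (h : ∀ θ ∈ V, ∀ g ∈ bh a b (u + c + q) (v + e + p), ∃ f ∈ bh a b (u + m) (v + n),
      θ * im Q g = im Q f) :
    (finrank ℂ V : ℤ) ≤ 1 + ((m : ℤ) - c - q) * dA + ((n : ℤ) - e - p) * dB := by
  classical
  have := hQ
  set B : ℕ → ℕ → Submodule ℂ (KK Q) := fun s t => (bh a b s t).map (im Q).toLinearMap with hB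
  have hinj : Function.Injective (algebraMap (Co a b ⧸ Q) (KK Q)) :=
    IsFractionRing.injective _ _
  have hBfin : ∀ s t, FiniteDimensional ℂ (B s t) := by
    intro s t
    have := finite_bh (a := a) (b := b) s t
    exact Module.Finite.map _ _
  have hBrank : ∀ s t, finrank ℂ (B s t) = hf Q s t := by
    intro s t
    have e1 : B s t = ((bh a b s t).map (Ideal.Quotient.mkₐ ℂ Q).toLinearMap).map
        (IsScalarTower.toAlgHom ℂ (Co a b ⧸ Q) (KK Q)).toLinearMap := by
      rw [← Submodule.map_comp]
      rfl
    rw [e1, hf]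
    exact (LinearEquiv.finrank_eq (Submodule.equivMapOfInjective
      (IsScalarTower.toAlgHom ℂ (Co a b ⧸ Q) (KK Q)).toLinearMap hinj _)).symm
  have hBne : ∀ s t, B s t ≠ ⊥ := by
    intro s t h0
    apply hr s t
    intro g hg
    have h1 : (im Q).toLinearMap g ∈ B s t := Submodule.mem_map_of_mem hg
    rw [h0, Submodule.mem_bot] at h1
    have h2 : algebraMap (Co a b ⧸ Q) (KK Q) (Ideal.Quotient.mk Q g) = 0 := h1
    rw [map_eq_zero_iff _ hinj, Ideal.Quotient.eq_zero_iff_mem] at h2
    exact h2
  have hBmul : ∀ s t s' t', B (s + s') (t + t') = B s t * B s' t' := by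
    intro s t s' t'
    have e2 : bh a b (s + s') (t + t') = bh a b s t * bh a b s' t' :=
      le_antisymm (bh_le_mul _ _ _ _) (mul_le_bh _ _ _ _)
    simp only [hB]
    rw [e2, Submodule.map_mul]
  have hle : ∀ s t : ℕ, V * B (u + c + q + s) (v + e + p + t) ≤ B (u + m + s) (v + n + t) := by
    intro s t
    rw [hBmul (u + c + q) (v + e + p) s t, hBmul (u + m) (v + n) s t, ← mul_assoc]
    have hle0 : V * B (u + c + q) (v + e + p) ≤ B (u + m) (v + n) := by
      rw [Submodule.mul_le]
      rintro θ hθ x ⟨g, hg, rfl⟩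
      obtain ⟨f, hf, hfe⟩ := h θ hθ g hg
      exact ⟨f, hf, hfe.symm⟩
    exact Submodule.mul_le.2 fun x hx y hy => Submodule.mul_mem_mul (hle0 hx) hy
  obtain ⟨n0, hn0⟩ := hl
  have key := Pool.Agent.TH493.NEF.finrank_mul_field (F := ℂ) (K := KK Q) _ V
    (B (u + c + q + n0) (v + e + p + n0)) rfl hV (hBne _ _) inferInstance (hBfin _ _)
  have := hBfin (u + m + n0) (v + n + n0)
  have key2 := Submodule.finrank_mono (hle n0 n0)
  rw [hBrank] at key key2
  have l1 := hn0 (u + c + q + n0) (v + e + p + n0) (by omega) (by omega)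
  have l2 := hn0 (u + m + n0) (v + n + n0) (by omega) (by omega)
  have k3 : (finrank ℂ V : ℤ) + (hf Q (u + c + q + n0) (v + e + p + n0) : ℤ) ≤
      (hf Q (u + m + n0) (v + n + n0) : ℤ) + 1 := by
    have : finrank ℂ V + hf Q (u + c + q + n0) (v + e + p + n0) ≤
      hf Q (u + m + n0) (v + n + n0) + 1 := by omega
    exact_mod_cast this
  rw [l1, l2] at k3
  push_cast at k3
  nlinarith [k3]

end Pool.Agent.TH279.GR.G7
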